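import Pool.Agent.Helper50.LF.AccB
import Pool.Agent.Helper46.LF.Wit
import Pool.Agent.Helper28.LF.SubA
import Pool.Agent.Helper4.LF.Conv

/-!
# Project LF, LF-7: the Dow space of the first scale is Frechet
-/

set_option autoImplicit false

namespace Pool.Agent.Helper50.LF

open Pool.Agent.Helper33.HM Pool.Agent.Helper94.BA
open Pool.Agent.Helper32.FR (wt nd PN okV avV lsV valV incV accS accV piV Scale Bdg)

variable {B : Type 1} [CompleteBooleanAlgebra B] {c : Ordinal.{0} → ℕ → B}

theorem fre (hccc : CCC B) (hb : Bdg B) (hc : Scale c)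
    (hp : ∀ γ A t, ⨆ Z : ℕ → B, piV c γ A t Z = ⊤) :
    FreV (fun _ : Ordinal.{0} => (⊤ : B)) (fun β => decV (c β)) := by
  intro A x
  obtain ⟨γ, hγ⟩ := exists_closed hccc hb hc (fun n => A (nd n)) x
  have h1 := clV_le_accV (c := c) γ A x
  have h2 := accV_subA hc hγ
  have h3 := hp γ (subA (c γ) (fun n => A (nd n)) x) x
  have h4 : clV (fun _ : Ordinal.{0} => (⊤ : B)) (fun β => decV (c β)) A x ≤
      accV c γ (subA (c γ) (fun n => A (nd n)) x) x := h1.trans h2
  calc clV (fun _ : Ordinal.{0} => (⊤ : B)) (fun β => decV (c β)) A x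
      = clV (fun _ : Ordinal.{0} => (⊤ : B)) (fun β => decV (c β)) A x ⊓
          ⨆ Z : ℕ → B, piV c γ (subA (c γ) (fun n => A (nd n)) x) x Z := by
        rw [h3, inf_top_eq]
    _ = ⨆ Z : ℕ → B, clV (fun _ : Ordinal.{0} => (⊤ : B)) (fun β => decV (c β)) A x ⊓
          piV c γ (subA (c γ) (fun n => A (nd n)) x) x Z := inf_iSup_eq _ _
    _ ≤ _ := by
        refine iSup_le fun Z => ?_
        refine le_trans ?_ (le_iSup _ (enN Z))
        refine le_trans ?_ (conv_of hc γ A x Z)
        unfold piV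
        refine le_inf (inf_le_right.trans inf_le_left) ?_
        calc clV (fun _ : Ordinal.{0} => (⊤ : B)) (fun β => decV (c β)) A x ⊓
              ((⨅ n : ℕ, Z n ⇨ subA (c γ) (fun n => A (nd n)) x n) ⊓
                (accV c γ (subA (c γ) (fun n => A (nd n)) x) x ⇨
                  Pool.Agent.Helper32.FR.convV c γ x Z))
            ≤ accV c γ (subA (c γ) (fun n => A (nd n)) x) x ⊓
                (accV c γ (subA (c γ) (fun n => A (nd n)) x) x ⇨
                  Pool.Agent.Helper32.FR.convV c γ x Z) :=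
              inf_le_inf h4 inf_le_right
          _ ≤ Pool.Agent.Helper32.FR.convV c γ x Z := inf_himp_le

end Pool.Agent.Helper50.LF
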